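import Mathlib
import Pool.Agent.X78.CoverCol

/-!
# MP_a018d0_co: vertices covered by `s` of `r` colours

There is an absolute constant `C` such that `g (n, r, s) ≤ (1 - exp (-C s² / r)) n` for all
`r ≤ s²`, `601 s ≤ r` and all `n` large in terms of `r` and `s`; in particular in the whole range
`√r ≪ s ≪ √(r log r)`.
-/

namespace Pool.Agent.Results.MP_a018d0_co.UpperBound

open Finset Filter Topology

/-- An `r`-edge colouring of `K_n`: a symmetric function on pairs of vertices (its values on the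
diagonal are irrelevant). -/
def IsColouring {n r : ℕ} (c : Fin n → Fin n → Fin r) : Prop := ∀ u v, c u v = c v u

open Classical in
/-- The number of vertices covered by the set of colours `S`. -/
noncomputable def covered {n r : ℕ} (c : Fin n → Fin n → Fin r) (S : Finset (Fin r)) : ℕ :=
  #(Finset.univ.filter (fun v : Fin n => ∃ u, u ≠ v ∧ c v u ∈ S))

/-- `g (n, r, s)` is the largest `m` such that in every `r`-edge colouring of `K_n` some set of `s`
colours covers at least `m` vertices. -/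
noncomputable def g (n r s : ℕ) : ℕ :=
  sSup {m : ℕ | ∀ c : Fin n → Fin n → Fin r, IsColouring c →
    ∃ S : Finset (Fin r), #S = s ∧ m ≤ covered c S}

/-- An upper bound for `g` from one colouring. -/
theorem g_le {n r s M : ℕ} (c : Fin n → Fin n → Fin r) (hc : IsColouring c)
    (h : ∀ S : Finset (Fin r), #S = s → covered c S ≤ M) : g n r s ≤ M := by
  unfold g
  apply csSup_le'
  intro m hm
  obtain ⟨S, hS, hmS⟩ := hm c hc
  exact hmS.trans (h S hS)

theorem log_six : Real.log 6 < 9 / 5 := by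
  rw [Real.log_lt_iff_lt_exp (by norm_num)]
  have h1 : (2.7182818283 : ℝ) < Real.exp 1 := Real.exp_one_gt_d9
  have h2 : Real.exp (9 / 5) = Real.exp 1 * Real.exp (4 / 5) := by
    rw [← Real.exp_add]; norm_num
  have h3 : (1 : ℝ) + 4 / 5 + (4 / 5) ^ 2 / 2 + (4 / 5) ^ 3 / 6 + (4 / 5) ^ 4 / 24 ≤
      Real.exp (4 / 5) := by
    have := Real.sum_le_exp_of_nonneg (x := 4 / 5) (by norm_num) 5
    simp only [Finset.sum_range_succ, Finset.sum_range_zero, Nat.factorial] at this
    norm_num at this ⊢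
    linarith
  rw [h2]
  nlinarith

/-- The bound for all `r ≤ s²`, `601 s ≤ r`. -/
theorem strong (r s : ℕ) (hrs : r ≤ s ^ 2) (hsr : 601 * s ≤ r) (hr : 0 < r) :
    ∃ n₀ : ℕ, ∀ n ≥ n₀,
      (g n r s : ℝ) ≤ (1 - Real.exp (-(1084 * (s : ℝ) ^ 2 / r))) * n := by
  have hs : 0 < s := by
    rcases Nat.eq_zero_or_pos s with h | h
    · rw [h] at hrs; simp at hrs; omega
    · exact h
  have hr' : (0 : ℝ) < r := by exact_mod_cast hr
  have hs' : (0 : ℝ) < s := by exact_mod_cast hs
  -- the parameter t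
  set x : ℝ := 600 * (s : ℝ) ^ 2 / r with hx
  set t : ℕ := ⌈x⌉₊ with ht
  have hrs' : (r : ℝ) ≤ (s : ℝ) ^ 2 := by exact_mod_cast hrs
  have hΛ : 1 ≤ (s : ℝ) ^ 2 / r := by rw [le_div_iff₀ hr']; linarith
  have hx600 : 600 ≤ x := by
    rw [hx, mul_div_assoc]; linarith
  have htx : x ≤ t := Nat.le_ceil x
  have htx2 : (t : ℝ) < x + 1 := Nat.ceil_lt_add_one (by linarith)
  have ht601 : (t : ℝ) ≤ 601 * ((s : ℝ) ^ 2 / r) := by
    rw [hx, mul_div_assoc] at htx2; linarith
  have htpos : 0 < t := by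
    have : (0 : ℝ) < t := by linarith
    exact_mod_cast this
  have hsr' : 601 * (s : ℝ) ≤ r := by exact_mod_cast hsr
  have hts : t ≤ s := by
    have : (t : ℝ) ≤ s := by
      calc (t : ℝ) ≤ 601 * ((s : ℝ) ^ 2 / r) := ht601
        _ = (601 * s) * s / r := by ring
        _ ≤ r * s / r := by gcongr
        _ = s := by field_simp
    exact_mod_cast this
  -- the prime
  set m : ℕ := (4 * s) / t + 1 with hm
  obtain ⟨p, hp, hmp, hp2⟩ := Nat.exists_prime_lt_and_le_two_mul m (Nat.succ_ne_zero _)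
  have h4s : 4 * s ≤ p * t := by
    have h1 : 4 * s < ((4 * s) / t + 1) * t := by
      have := Nat.lt_div_mul_add htpos (a := 4 * s)
      calc 4 * s < 4 * s / t * t + t := this
        _ = _ := by ring
    calc 4 * s ≤ ((4 * s) / t + 1) * t := h1.le
      _ ≤ p * t := Nat.mul_le_mul_right _ (by rw [← hm]; exact hmp.le)
  have hpt10 : p * t ≤ 10 * s := by
    calc p * t ≤ (2 * m) * t := Nat.mul_le_mul_right _ hp2
      _ = 2 * ((4 * s) / t * t) + 2 * t := by rw [hm]; ring
      _ ≤ 2 * (4 * s) + 2 * t := by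
          have := Nat.div_mul_le_self (4 * s) t
          omega
      _ ≤ 10 * s := by omega
  have hrt : 600 * s ^ 2 ≤ r * t := by
    have : (600 : ℝ) * (s : ℝ) ^ 2 ≤ r * t := by
      have h1 : x * r = 600 * (s : ℝ) ^ 2 := by rw [hx]; field_simp
      nlinarith
    exact_mod_cast this
  have hpr : (p * p + p) * (2 * t + 1) ≤ r := by
    have hp1 : 1 ≤ p := hp.one_le
    have h1 : (p * p + p) * (2 * t + 1) ≤ 6 * (p * p * t) := by
      calc (p * p + p) * (2 * t + 1) ≤ (p * p + p * p) * (2 * t + t) := by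
            apply Nat.mul_le_mul
            · have : p ≤ p * p := Nat.le_mul_of_pos_left p hp1
              omega
            · omega
        _ = _ := by ring
    have h2 : (6 * (p * p * t)) * t ≤ r * t := by
      calc (6 * (p * p * t)) * t = 6 * ((p * t) * (p * t)) := by ring
        _ ≤ 6 * ((10 * s) * (10 * s)) :=
            Nat.mul_le_mul_left _ (Nat.mul_le_mul hpt10 hpt10)
        _ = 600 * s ^ 2 := by ring
        _ ≤ r * t := hrt
    exact h1.trans (Nat.le_of_mul_le_mul_right h2 htpos)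
  obtain ⟨n₀, hn₀⟩ := X78.CoverCol.exists_colouring (s := s) hp htpos hpr h4s
  refine ⟨n₀, fun n hn => ?_⟩
  obtain ⟨c, hc, hS⟩ := hn₀ n hn
  have hexp : Real.exp (-(1084 * (s : ℝ) ^ 2 / r)) ≤ 1 / (4 * 6 ^ t) := by
    rw [one_div, Real.exp_neg]
    apply inv_anti₀ (by positivity)
    have h1 : ((4 : ℝ) * 6 ^ t) ≤ Real.exp 2 * Real.exp ((9 / 5) * t) := by
      apply mul_le_mul
      · have h1 : (2.7182818283 : ℝ) < Real.exp 1 := Real.exp_one_gt_d9
        have h2 : Real.exp 2 = Real.exp 1 * Real.exp 1 := by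
          rw [← Real.exp_add]; norm_num
        rw [h2]; nlinarith
      · have h6 : (6 : ℝ) ≤ Real.exp (9 / 5) := by
          rw [← Real.log_le_iff_le_exp (by norm_num)]
          exact log_six.le
        calc (6 : ℝ) ^ t ≤ (Real.exp (9 / 5)) ^ t := pow_le_pow_left₀ (by norm_num) h6 t
          _ = Real.exp ((9 / 5) * t) := by rw [← Real.exp_nat_mul]; ring_nf
      · positivity
      · positivity
    refine h1.trans ?_
    rw [← Real.exp_add]
    apply Real.exp_le_exp.2
    calc 2 + 9 / 5 * (t : ℝ) ≤ 2 * ((s : ℝ) ^ 2 / r) + 9 / 5 * (601 * ((s : ℝ) ^ 2 / r)) := by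
          linarith
      _ ≤ 1084 * ((s : ℝ) ^ 2 / r) := by linarith
      _ = _ := by ring
  -- the bound for the number of covered vertices
  have hcov : ∀ S : Finset (Fin r), #S = s →
      (covered c S : ℝ) ≤ (1 - Real.exp (-(1084 * (s : ℝ) ^ 2 / r))) * n := by
    intro S hSs
    have h1 := hS S hSs.le
    have hle : covered c S ≤ n := by
      unfold covered
      calc _ ≤ #(Finset.univ : Finset (Fin n)) := Finset.card_filter_le _ _
        _ = n := by rw [Finset.card_univ, Fintype.card_fin]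
    have h2 : (n : ℝ) ≤ 4 * 6 ^ t * ((n : ℝ) - covered c S) := by
      have h3 : ((n : ℕ) : ℝ) ≤ ((4 * 6 ^ t * (n - X78.CoverCol.covered c S) : ℕ) : ℝ) := by
        exact_mod_cast h1
      have h4 : X78.CoverCol.covered c S = covered c S := rfl
      rw [h4] at h3
      push_cast [Nat.cast_sub hle] at h3
      exact h3
    have h5 : (n : ℝ) * (1 / (4 * 6 ^ t)) ≤ (n : ℝ) - covered c S := by
      rw [mul_one_div, div_le_iff₀ (by positivity)]
      linarith
    have h6 : (n : ℝ) * Real.exp (-(1084 * (s : ℝ) ^ 2 / r)) ≤ n * (1 / (4 * 6 ^ t)) :=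
      mul_le_mul_of_nonneg_left hexp (Nat.cast_nonneg n)
    linarith
  have hfloor : g n r s ≤ ⌊(1 - Real.exp (-(1084 * (s : ℝ) ^ 2 / r))) * n⌋₊ :=
    g_le c hc (fun S hSs => Nat.le_floor (hcov S hSs))
  have hnonneg : 0 ≤ (1 - Real.exp (-(1084 * (s : ℝ) ^ 2 / r))) * n := by
    apply mul_nonneg _ (Nat.cast_nonneg n)
    have : Real.exp (-(1084 * (s : ℝ) ^ 2 / r)) ≤ 1 := by
      apply Real.exp_le_one_iff.2
      have : 0 ≤ 1084 * (s : ℝ) ^ 2 / r := by positivity
      linarith
    linarith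
  calc (g n r s : ℝ) ≤ (⌊(1 - Real.exp (-(1084 * (s : ℝ) ^ 2 / r))) * n⌋₊ : ℝ) := by
        exact_mod_cast hfloor
    _ ≤ _ := Nat.floor_le hnonneg

/-- First part: the bound `g (n, r, s) ≤ (1 - exp (-C s² / r)) n` for all `r ≤ s²`, `601 s ≤ r`,
with `C = 1084`, and `n` large in terms of `r`. Second part: Q1 as stated. -/
theorem result :
    (∀ r s : ℕ, 0 < r → r ≤ s ^ 2 → 601 * s ≤ r → ∃ n₀ : ℕ, ∀ n ≥ n₀,
      (g n r s : ℝ) ≤ (1 - Real.exp (-(1084 * (s : ℝ) ^ 2 / r))) * n) ∧
    (∃ C : ℝ, 0 < C ∧ ∀ s : ℕ → ℕ,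
      Tendsto (fun r : ℕ => (s r : ℝ) / √r) atTop atTop →
      Tendsto (fun r : ℕ => (s r : ℝ) / √(r * Real.logb 2 r)) atTop (𝓝 0) →
      ∀ᶠ r : ℕ in atTop, ∀ᶠ n : ℕ in atTop,
        (g n r (s r) : ℝ) ≤ (1 - Real.exp (-(C * (s r : ℝ) ^ 2 / r))) * n) := by
  refine ⟨fun r s hr hrs hsr => strong r s hrs hsr hr, 1084, by norm_num, ?_⟩
  intro s h1 h2
  have hlog : ∀ᶠ r : ℕ in atTop, Real.logb 2 r ≤ (1 / 601 ^ 2) * r := by
    have h := Real.isLittleO_log_id_atTop.bound
      (show (0 : ℝ) < Real.log 2 / 601 ^ 2 by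
        have := Real.log_pos (by norm_num : (1 : ℝ) < 2)
        positivity)
    filter_upwards [tendsto_natCast_atTop_atTop.eventually h, eventually_ge_atTop 1] with r hr hr1
    have hr1' : (1 : ℝ) ≤ r := by exact_mod_cast hr1
    rw [Real.norm_eq_abs, abs_of_nonneg (Real.log_nonneg hr1'), id, Real.norm_eq_abs,
      abs_of_nonneg (by linarith)] at hr
    have hl2 := Real.log_pos (by norm_num : (1 : ℝ) < 2)
    rw [Real.logb, div_le_iff₀ hl2]
    calc Real.log r ≤ Real.log 2 / 601 ^ 2 * r := hr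
      _ = _ := by ring
  filter_upwards [h1.eventually_ge_atTop 1, h2.eventually (Iio_mem_nhds (zero_lt_one)), hlog,
    eventually_ge_atTop 2] with r ha hb hc hr
  have hr0 : 0 < r := by omega
  have hr' : (0 : ℝ) < r := by exact_mod_cast hr0
  have hsq : (0 : ℝ) < √r := Real.sqrt_pos.2 hr'
  have hrs : r ≤ (s r) ^ 2 := by
    rw [le_div_iff₀ hsq, one_mul] at ha
    have : (r : ℝ) ≤ (s r : ℝ) ^ 2 := by
      calc (r : ℝ) = √r ^ 2 := (Real.sq_sqrt hr'.le).symm
        _ ≤ _ := by gcongr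
    exact_mod_cast this
  have hsr : 601 * s r ≤ r := by
    have hlogpos : 0 < Real.logb 2 r := by
      apply Real.logb_pos (by norm_num)
      have : (2 : ℝ) ≤ r := by exact_mod_cast hr
      linarith
    have hpos : 0 < √(r * Real.logb 2 r) := Real.sqrt_pos.2 (mul_pos hr' hlogpos)
    have hlt : (s r : ℝ) < √(r * Real.logb 2 r) := by
      have := (div_lt_one hpos).1 hb
      exact this
    have h3 : √(r * Real.logb 2 r) ≤ (1 / 601) * r := by
      apply Real.sqrt_le_iff.2
      refine ⟨by positivity, ?_⟩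
      calc (r : ℝ) * Real.logb 2 r ≤ r * ((1 / 601 ^ 2) * r) := by gcongr
        _ = _ := by ring
    have h4 : 601 * (s r : ℝ) ≤ r := by linarith
    exact_mod_cast h4
  obtain ⟨n₀, hn₀⟩ := strong r (s r) hrs hsr hr0
  filter_upwards [eventually_ge_atTop n₀] with n hn
  exact hn₀ n hn

end Pool.Agent.Results.MP_a018d0_co.UpperBound
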